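import Pool.Agent.Helper81.XP.StB

/-!
MP_f90738_co: at all but few pairs the double commutator rarely vanishes.
-/

set_option autoImplicit false

open Finset
open scoped Pointwise LinearAlgebra.Projectivization

namespace Pool.Agent.Helper51.XP

open Pool.Agent.Helper81.XP

theorem ctt_rr : 0 < rr ∧ rr < 1 := by
  unfold rr LL
  constructor <;> norm_num

theorem ctt_event (T κ : ℝ) (hκ : 0 < κ) : ∃ x0 : ℝ, ∀ x : ℝ, x0 ≤ x →
    5 ≤ x ∧ 2 ≤ T * Real.log x ∨ T ≤ 0 := by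
  rcases le_or_gt T 0 with h | h
  · exact ⟨0, fun x _ => Or.inr h⟩
  · have h1 := (Real.tendsto_log_atTop.const_mul_atTop h).eventually_ge_atTop 2
    obtain ⟨x0, hx0⟩ := Filter.eventually_atTop.mp h1
    exact ⟨max x0 5, fun x hx => Or.inl ⟨le_trans (le_max_right _ _) hx,
      hx0 x (le_trans (le_max_left _ _) hx)⟩⟩

theorem ctt_big (C : ℝ) (m : ℕ) (κ : ℝ) (hκ : 0 < κ) : ∃ x0 : ℝ, ∀ x : ℝ, x0 ≤ x →
    C * Real.log x ^ m < x ^ κ := by
  have h1 : (fun x : ℝ => Real.log x ^ (m : ℝ)) =o[Filter.atTop] fun x => x ^ κ :=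
    isLittleO_log_rpow_rpow_atTop (m : ℝ) hκ
  have hc : 0 < 1 / (2 * (|C| + 1)) := by positivity
  have h2 := h1.bound hc
  have h3 := Filter.eventually_ge_atTop (1 : ℝ)
  obtain ⟨x0, hx0⟩ := Filter.eventually_atTop.mp (h2.and h3)
  refine ⟨x0, fun x hx => ?_⟩
  obtain ⟨ha, hb⟩ := hx0 x hx
  have hl : 0 ≤ Real.log x := Real.log_nonneg hb
  have hxp : 0 < x ^ κ := Real.rpow_pos_of_pos (by linarith) κ
  have hlm : 0 ≤ Real.log x ^ m := by positivity
  rw [Real.rpow_natCast, Real.norm_eq_abs, Real.norm_eq_abs, abs_of_nonneg hlm,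
    abs_of_nonneg hxp.le] at ha
  calc C * Real.log x ^ m ≤ (|C| + 1) * Real.log x ^ m := by
        apply mul_le_mul_of_nonneg_right _ hlm
        linarith [le_abs_self C]
    _ ≤ (|C| + 1) * (1 / (2 * (|C| + 1)) * x ^ κ) := by
        apply mul_le_mul_of_nonneg_left ha (by positivity)
    _ = x ^ κ / 2 := by field_simp
    _ < x ^ κ := by linarith

open Classical in
theorem st_CTT (hBDE : ST_BDE) (hGDF : ST_GDF) : ST_CTT := by
  obtain ⟨hr0, hr1⟩ := ctt_rr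
  have hlr : Real.log rr < 0 := Real.log_neg hr0 hr1
  set T : ℝ := 12 / (-Real.log rr) with hT
  have hTpos : 0 < T := by rw [hT]; exact div_pos (by norm_num) (by linarith)
  refine ⟨T, hTpos, fun κ hκ => ?_⟩
  obtain ⟨x1, hx1⟩ := ctt_event T κ hκ
  obtain ⟨x2, hx2⟩ := ctt_big (256 * (32 * T) ^ 8) 8 κ hκ
  obtain ⟨x3, hx3⟩ := ctt_big (4 * (32 * T) ^ 3) 3 1 one_pos
  refine ⟨⌈max x1 (max x2 x3)⌉₊, ?_⟩
  intro p _ hp
  have hpx : max x1 (max x2 x3) ≤ (p : ℝ) := le_trans (Nat.le_ceil _) (by exact_mod_cast hp)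
  have hp1 := hx1 p (le_trans (le_max_left _ _) hpx)
  have hp2 := hx2 p (le_trans (le_trans (le_max_left _ _) (le_max_right _ _)) hpx)
  have hp3 := hx3 p (le_trans (le_trans (le_max_right _ _) (le_max_right _ _)) hpx)
  rcases hp1 with ⟨hp5, hTl⟩ | h
  swap
  · linarith
  have hp5' : 5 ≤ p := by exact_mod_cast hp5
  have hlp : 0 < Real.log p := Real.log_pos (by linarith)
  obtain ⟨j, hj1, hj2⟩ := exists_nat_pow_near (x := T * Real.log p / 2) (y := (2 : ℝ))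
    (by linarith) (by norm_num)
  have hjle : (2 : ℝ) ^ (j + 1) ≤ T * Real.log p := by rw [pow_succ]; linarith
  refine ⟨j, hjle, ?_⟩
  set n : ℕ := 2 ^ (j + 1) with hn
  have hn1 : 1 ≤ n := Nat.one_le_two_pow
  have hnR : (n : ℝ) = 2 ^ (j + 1) := by rw [hn]; push_cast; rfl
  have hnle : (n : ℝ) ≤ T * Real.log p := by rw [hnR]; exact hjle
  have hnge : T * Real.log p / 2 < n := by rw [hnR]; exact hj2
  have hn1' : (1 : ℝ) ≤ n := by exact_mod_cast hn1
  have hpn : 4 * (32 * n) ^ 3 < p := by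
    have h1 : 4 * (32 * (n : ℝ)) ^ 3 < p := by
      have h2 : (32 * (n : ℝ)) ^ 3 ≤ (32 * (T * Real.log p)) ^ 3 := by
        apply pow_le_pow_left₀ (by positivity)
        linarith
      have h3 : 4 * (32 * T) ^ 3 * Real.log p ^ 3 < p := by
        have := hp3
        rw [Real.rpow_one] at this
        exact this
      calc 4 * (32 * (n : ℝ)) ^ 3 ≤ 4 * (32 * (T * Real.log p)) ^ 3 :=
            mul_le_mul_of_nonneg_left h2 (by norm_num)
        _ = 4 * (32 * T) ^ 3 * Real.log p ^ 3 := by ring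
        _ < p := h3
    exact_mod_cast h1
  have hrn : rr ^ n ≤ (p : ℝ) ^ (-6 : ℝ) := by
    rw [← Real.rpow_natCast, Real.rpow_def_of_pos hr0, Real.rpow_def_of_pos (by linarith)]
    apply Real.exp_le_exp.mpr
    have h1 : Real.log rr * (n : ℝ) ≤ Real.log rr * (T * Real.log p / 2) :=
      mul_le_mul_of_nonpos_left hnge.le hlr.le
    have h2 : Real.log rr * (T * Real.log p / 2) = Real.log p * (-6) := by
      rw [hT]
      have : Real.log rr ≠ 0 := hlr.ne
      field_simp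
      ring
    linarith
  set X : Finset (ZMod p × ZMod p × ZMod p) := univ.filter (fun t =>
    ∃ A B : SL (ZMod p), Subgroup.closure ({A, B} : Set (SL (ZMod p))) = ⊤ ∧
      (tr A, tr B, tr (A * B)) = t ∧ (p : ℝ) ^ (-κ) * ((5 : ℝ) ^ n) ^ 4 ≤
      (((univ : Finset (Fin 4 → Fin n → Fin 5)).filter
      (fun u => dw A B u = 1)).card : ℝ)) with hX
  refine ⟨X, ?_, ?_⟩
  swap
  · intro A B hAB hnot
    by_contra hcon
    apply hnot
    rw [hX, mem_filter]
    exact ⟨mem_univ _, A, B, hAB, rfl, not_lt.mp hcon⟩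
  by_contra hcon
  rw [not_le] at hcon
  have hch : ∀ t : ZMod p × ZMod p × ZMod p, t ∈ X →
      ∃ P : Fin 3 → AlgebraicClosure (ZMod p), Good P ∧
      P 0 = algebraMap (ZMod p) (AlgebraicClosure (ZMod p)) t.1 ∧
      P 1 = algebraMap (ZMod p) (AlgebraicClosure (ZMod p)) t.2.1 ∧
      P 2 + (P 2)⁻¹ = algebraMap (ZMod p) (AlgebraicClosure (ZMod p)) t.2.2 ∧
      (p : ℝ) ^ (-κ) * ((5 : ℝ) ^ n) ^ 4 ≤ (((univ : Finset (Fin 4 → Fin n → Fin 5)).filter
        (fun u => dw (vA P) (vB P) u = 1)).card : ℝ) := by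
    intro t ht
    rw [hX, mem_filter] at ht
    obtain ⟨-, A, B, hAB, rfl, hle⟩ := ht
    obtain ⟨P, hP1, hP2, hP3, hP4, hP5⟩ := hGDF p hp5' A B hAB
    refine ⟨P, hP1, hP2, hP3, hP4, le_of_le_of_eq hle ?_⟩
    congr 2
    ext u
    rw [mem_filter, mem_filter]
    exact and_congr_right fun _ => hP5 n u
  choose! F hF1 hF2 hF3 hF4 hF5 using hch
  have hinj : Function.Injective (algebraMap (ZMod p) (AlgebraicClosure (ZMod p))) :=
    (algebraMap (ZMod p) (AlgebraicClosure (ZMod p))).injective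
  have hFinj : Set.InjOn F (X : Set (ZMod p × ZMod p × ZMod p)) := by
    intro s hs t ht hst
    have hs' : s ∈ X := hs
    have ht' : t ∈ X := ht
    have e1 : s.1 = t.1 := hinj (by rw [← hF2 s hs', ← hF2 t ht', hst])
    have e2 : s.2.1 = t.2.1 := hinj (by rw [← hF3 s hs', ← hF3 t ht', hst])
    have e3 : s.2.2 = t.2.2 := hinj (by rw [← hF4 s hs', ← hF4 t ht', hst])
    exact Prod.ext e1 (Prod.ext e2 e3)
  have hEcard : (X.image F).card = X.card := card_image_of_injOn hFinj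
  have hmain := hBDE (AlgebraicClosure (ZMod p)) p n (X.image F) ((p : ℝ) ^ (-κ)) hn1 hpn
    (by
      intro e he
      rw [mem_image] at he
      obtain ⟨t, ht, rfl⟩ := he
      exact hF1 t ht)
    (by positivity)
    (by
      intro e he
      rw [mem_image] at he
      obtain ⟨t, ht, rfl⟩ := he
      exact hF5 t ht)
  rw [hEcard] at hmain
  have hp0 : (0 : ℝ) < p := by linarith
  have hXle : (X.card : ℝ) ≤ (p : ℝ) ^ (3 : ℝ) := by
    have h1 : X.card ≤ p ^ 3 := by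
      refine le_trans (card_le_univ X) ?_
      rw [Fintype.card_prod, Fintype.card_prod, ZMod.card]
      exact le_of_eq (by ring)
    have h2 : (X.card : ℝ) ≤ ((p ^ 3 : ℕ) : ℝ) := by exact_mod_cast h1
    rw [Nat.cast_pow] at h2
    have h3 : (p : ℝ) ^ (3 : ℝ) = (p : ℝ) ^ (3 : ℕ) := by
      rw [← Real.rpow_natCast]; norm_num
    rw [h3]
    exact h2
  have hprod : rr ^ n * (X.card : ℝ) ≤ 1 := by
    calc rr ^ n * (X.card : ℝ) ≤ (p : ℝ) ^ (-6 : ℝ) * (p : ℝ) ^ (3 : ℝ) :=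
          mul_le_mul hrn hXle (by positivity) (by positivity)
      _ = (p : ℝ) ^ (-3 : ℝ) := by rw [← Real.rpow_add hp0]; norm_num
      _ ≤ 1 := Real.rpow_le_one_of_one_le_of_nonpos (by linarith) (by norm_num)
  have hL : (p : ℝ) ^ κ < (X.card : ℝ) * ((p : ℝ) ^ (-κ)) ^ 3 := by
    have h1 : ((p : ℝ) ^ (-κ)) ^ 3 = (p : ℝ) ^ (-(3 * κ)) := by
      rw [← Real.rpow_natCast, ← Real.rpow_mul hp0.le]
      congr 1
      push_cast
      ring
    have h2 : (p : ℝ) ^ κ = (p : ℝ) ^ (4 * κ) * (p : ℝ) ^ (-(3 * κ)) := by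
      rw [← Real.rpow_add hp0]
      congr 1
      ring
    rw [h1, h2]
    exact mul_lt_mul_of_pos_right hcon (Real.rpow_pos_of_pos hp0 _)
  have hR : 16 * (32 * (n : ℝ)) ^ 8 +
      3 * (4 * (32 * (n : ℝ)) ^ 4 * (20 * rr ^ n)) * X.card ≤ 256 * (32 * (n : ℝ)) ^ 8 := by
    have h1 : 3 * (4 * (32 * (n : ℝ)) ^ 4 * (20 * rr ^ n)) * X.card =
        240 * (32 * (n : ℝ)) ^ 4 * (rr ^ n * X.card) := by ring
    rw [h1]
    have h2 : 240 * (32 * (n : ℝ)) ^ 4 * (rr ^ n * X.card) ≤ 240 * (32 * (n : ℝ)) ^ 4 * 1 :=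
      mul_le_mul_of_nonneg_left hprod (by positivity)
    have h3 : (32 * (n : ℝ)) ^ 4 ≤ (32 * (n : ℝ)) ^ 8 :=
      pow_le_pow_right₀ (by linarith) (by norm_num)
    linarith
  have hfin : 256 * (32 * (n : ℝ)) ^ 8 ≤ 256 * (32 * T) ^ 8 * Real.log p ^ 8 := by
    have h2 : (32 * (n : ℝ)) ^ 8 ≤ (32 * (T * Real.log p)) ^ 8 := by
      apply pow_le_pow_left₀ (by positivity)
      linarith
    calc 256 * (32 * (n : ℝ)) ^ 8 ≤ 256 * (32 * (T * Real.log p)) ^ 8 := by linarith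
      _ = 256 * (32 * T) ^ 8 * Real.log p ^ 8 := by ring
  linarith

end Pool.Agent.Helper51.XP
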