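import Pool.Agent.Helper81.XP.StC

/-!
MP_f90738_co: expansion of words gives expansion of the set.
-/

set_option autoImplicit false

open Finset
open scoped Pointwise LinearAlgebra.Projectivization

namespace Pool.Agent.Helper51.XP

open Pool.Agent.Helper81.XP

open Classical in
/-- boundary of `X` in direction `g` -/
noncomputable def exw_D {G : Type} [Group G] (X : Finset G) (g : G) : Finset G :=
  (X.image (fun x => g * x)) \ X

theorem exw_mul {G : Type} [Group G] (X : Finset G) (g h : G) :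
    (exw_D X (g * h)).card ≤ (exw_D X g).card + (exw_D X h).card := by
  classical
  have hsub : exw_D X (g * h) ⊆ exw_D X g ∪ (exw_D X h).image (fun x => g * x) := by
    intro y hy
    unfold exw_D at hy ⊢
    rw [mem_sdiff, mem_image] at hy
    obtain ⟨⟨x, hx, rfl⟩, hy⟩ := hy
    rw [mem_union, mem_sdiff, mem_image, mem_image]
    by_cases hhx : h * x ∈ X
    · left
      exact ⟨⟨h * x, hhx, by rw [mul_assoc]⟩, hy⟩
    · right
      refine ⟨h * x, ?_, by rw [mul_assoc]⟩
      rw [mem_sdiff, mem_image]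
      exact ⟨⟨x, hx, rfl⟩, hhx⟩
  refine le_trans (card_le_card hsub) (le_trans (card_union_le _ _) ?_)
  exact Nat.add_le_add_left card_image_le _

theorem exw_inv {G : Type} [Group G] (X : Finset G) (g : G) :
    (exw_D X g⁻¹).card ≤ (exw_D X g).card := by
  classical
  have h1 : (exw_D X g⁻¹).card = ((exw_D X g⁻¹).image (fun x => g * x)).card :=
    (card_image_of_injective _ (mul_right_injective g)).symm
  have h2 : (exw_D X g⁻¹).image (fun x => g * x) ⊆ X \ (X.image (fun x => g * x)) := by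
    intro y hy
    rw [mem_image] at hy
    obtain ⟨z, hz, rfl⟩ := hy
    unfold exw_D at hz
    rw [mem_sdiff, mem_image] at hz
    obtain ⟨⟨x, hx, rfl⟩, hz⟩ := hz
    rw [mem_sdiff, mem_image]
    rw [mul_inv_cancel_left]
    refine ⟨hx, ?_⟩
    rintro ⟨x', hx', he⟩
    apply hz
    rw [← he, inv_mul_cancel_left]
    exact hx'
  have h3 : (X \ (X.image (fun x => g * x))).card = ((X.image (fun x => g * x)) \ X).card :=
    card_sdiff_comm (card_image_of_injective _ (mul_right_injective g)).symm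
  rw [h1]
  refine le_trans (card_le_card h2) (le_of_eq ?_)
  rw [h3]
  rfl

theorem exw_ball {G : Type} [Group G] (S X : Finset G) (d : ℕ)
    (hd : ∀ w, (w ∈ S ∨ w⁻¹ ∈ S ∨ w = 1) → (exw_D X w).card ≤ d) : ∀ (l : ℕ) (g : G),
    g ∈ Bl S l → (exw_D X g).card ≤ l * d := by
  classical
  intro l
  induction l with
  | zero =>
    intro g hg
    unfold Bl at hg
    rw [pow_zero, mem_one] at hg
    subst hg
    rw [Nat.zero_mul, Nat.le_zero, card_eq_zero]
    unfold exw_D
    rw [sdiff_eq_empty_iff_subset]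
    intro y hy
    rw [mem_image] at hy
    obtain ⟨x, hx, rfl⟩ := hy
    rwa [one_mul]
  | succ l ih =>
    intro g hg
    unfold Bl at hg
    rw [pow_succ, mem_mul] at hg
    obtain ⟨g1, hg1, w, hw, rfl⟩ := hg
    have h1 := ih g1 hg1
    have h2 : (exw_D X w).card ≤ d := by
      apply hd
      rw [mem_union, mem_union, mem_inv', mem_singleton] at hw
      tauto
    have h3 := exw_mul X g1 w
    rw [Nat.succ_mul]
    omega

theorem st_EXW : ST_EXW := by
  classical
  intro G _ _ S l a b c hl ha hb hE X hX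
  have hE' := hE X hX
  have hl0 : (0 : ℝ) < l := by exact_mod_cast hl
  obtain ⟨d, hd⟩ : ∃ d : ℕ, d = (((S ∪ S⁻¹) * X) \ X).card := ⟨_, rfl⟩
  have hw : ∀ w, (w ∈ S ∨ w⁻¹ ∈ S ∨ w = 1) → (exw_D X w).card ≤ d := by
    intro w hw
    rw [hd]
    apply card_le_card
    intro y hy
    unfold exw_D at hy
    rw [mem_sdiff, mem_image] at hy
    obtain ⟨⟨x, hx, rfl⟩, hy⟩ := hy
    rw [mem_sdiff]
    refine ⟨?_, hy⟩
    rcases hw with hw | hw | hw
    · exact mul_mem_mul (mem_union_left _ hw) hx
    · exact mul_mem_mul (mem_union_right _ (mem_inv'.mpr hw)) hx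
    · exfalso
      apply hy
      rw [hw, one_mul]
      exact hx
  have ha' := exw_ball S X d hw l a ha
  have hb' := exw_ball S X d hw l b hb
  have hai := le_trans (exw_inv X a) ha'
  have hbi := le_trans (exw_inv X b) hb'
  have hsub : ((({a, b} : Finset G) ∪ ({a, b} : Finset G)⁻¹) * X) \ X ⊆
      (exw_D X a ∪ exw_D X b) ∪ (exw_D X a⁻¹ ∪ exw_D X b⁻¹) := by
    intro y hy
    rw [mem_sdiff, mem_mul] at hy
    obtain ⟨⟨g, hg, x, hx, rfl⟩, hy⟩ := hy
    have key : ∀ g', g = g' → g * x ∈ exw_D X g' := by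
      rintro g' rfl
      unfold exw_D
      rw [mem_sdiff, mem_image]
      exact ⟨⟨x, hx, rfl⟩, hy⟩
    rw [mem_union, mem_inv', mem_insert, mem_singleton, mem_insert, mem_singleton] at hg
    rw [mem_union, mem_union, mem_union]
    rcases hg with (hg | hg) | (hg | hg)
    · exact Or.inl (Or.inl (key _ hg))
    · exact Or.inl (Or.inr (key _ hg))
    · exact Or.inr (Or.inl (key _ (by rw [← hg, inv_inv])))
    · exact Or.inr (Or.inr (key _ (by rw [← hg, inv_inv])))
  have hcard : (((({a, b} : Finset G) ∪ ({a, b} : Finset G)⁻¹) * X) \ X).card ≤ 4 * (l * d) := by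
    refine le_trans (card_le_card hsub) ?_
    have h1 := card_union_le (exw_D X a ∪ exw_D X b) (exw_D X a⁻¹ ∪ exw_D X b⁻¹)
    have h2 := card_union_le (exw_D X a) (exw_D X b)
    have h3 := card_union_le (exw_D X a⁻¹) (exw_D X b⁻¹)
    omega
  have hcard' : ((((({a, b} : Finset G) ∪ ({a, b} : Finset G)⁻¹) * X) \ X).card : ℝ) ≤
      4 * (l * d) := by exact_mod_cast hcard
  have hfin : c * (X.card : ℝ) ≤ 4 * (l * d) := by
    refine le_trans ?_ hcard'
    exact hE'
  have hgoal : c / (4 * (l : ℝ)) * (X.card : ℝ) ≤ (d : ℝ) := by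
    rw [div_mul_eq_mul_div, div_le_iff₀ (by positivity)]
    linarith
  rw [hd] at hgoal
  exact hgoal

end Pool.Agent.Helper51.XP
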