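import Pool.Agent.Helper81.XP.StC

/-!
MP_f90738_co: the main theorem for generating sets of bounded size.
-/

set_option autoImplicit false

open Finset
open scoped Pointwise LinearAlgebra.Projectivization

namespace Pool.Agent.Helper51.XP

open Pool.Agent.Helper81.XP

theorem fnr_mono {G : Type} [Group G] (S : Finset G) {c c' : ℝ} (h : c ≤ c') (hS : SExp S c') :
    SExp S c := fun X hX =>
  le_trans (mul_le_mul_of_nonneg_right h (Nat.cast_nonneg _)) (hS X hX)

theorem fnr_sub {G : Type} [Group G] (S : Finset G) {i j : ℕ} (h : i ≤ j) : Bl S i ⊆ Bl S j := by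
  classical
  unfold Bl
  apply pow_subset_pow_right _ h
  rw [mem_union]
  right
  exact mem_singleton_self 1

theorem fnr_mul {G : Type} [Group G] (S : Finset G) {i j : ℕ} {g h : G} (hg : g ∈ Bl S i)
    (hh : h ∈ Bl S j) : g * h ∈ Bl S (i + j) := by
  classical
  unfold Bl at hg hh ⊢
  rw [pow_add]
  exact mul_mem_mul hg hh

theorem fnr_one {G : Type} [Group G] (S : Finset G) {g : G} (hg : g ∈ S) : g ∈ Bl S 1 := by
  classical
  unfold Bl
  rw [pow_one, mem_union, mem_union]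
  exact Or.inl (Or.inl hg)

theorem fnr_id {G : Type} [Group G] (S : Finset G) : (1 : G) ∈ Bl S 0 := by
  classical
  unfold Bl
  rw [pow_zero]
  exact one_mem_one

theorem fnr_big (C δ : ℝ) (hδ : 0 < δ) : ∃ N : ℕ, ∀ p : ℕ, N ≤ p → C ≤ (p : ℝ) ^ δ := by
  have h1 := (tendsto_rpow_atTop hδ).eventually_ge_atTop C
  obtain ⟨x0, hx0⟩ := Filter.eventually_atTop.mp h1
  exact ⟨⌈x0⌉₊, fun p hp => hx0 p (le_trans (Nat.le_ceil _) (by exact_mod_cast hp))⟩

open Classical in
theorem st_FNR (hFIN : ST_FIN) (hBDC : ST_BDC) (hTRG : ST_TRG) (hEXA : ST_EXA) (hEXW : ST_EXW)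
    (hSMS : ST_SMS) (hCTP : ST_CTP) (hCRD : ST_CRD) : ST_FNR := by
  intro r l δ hδ
  set δ1 : ℝ := δ / (3 * r + 2) with hδ1
  have hr0 : (0 : ℝ) ≤ r := Nat.cast_nonneg r
  have hδ1pos : 0 < δ1 := by positivity
  have hδ1eq : δ1 * (3 * r + 2) = δ := by
    rw [hδ1]
    field_simp
  have hδ1le : δ1 ≤ δ := by nlinarith
  obtain ⟨c0, hc0, hF⟩ := hFIN δ1 hδ1pos
  obtain ⟨N1, p1, hA⟩ := hEXA
  obtain ⟨p3, hp3⟩ := fnr_big 8000 δ1 hδ1pos
  obtain ⟨p4, hp4⟩ := fnr_big (4 * 16 ^ r) δ1 hδ1pos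
  set l1 : ℕ := l + N1 + 10 with hl1
  have hl1pos : (0 : ℝ) < l1 := by
    have : 0 < l1 := by omega
    exact_mod_cast this
  set p2 : ℕ := max (max 5 p1) (max p3 p4) with hp2
  have hp2pos : (0 : ℝ) < p2 := by
    have : 0 < p2 := lt_of_lt_of_le (by norm_num) (le_trans (le_max_left 5 p1) (le_max_left _ _))
    exact_mod_cast this
  refine ⟨min (c0 / (4 * (l1 : ℝ))) (1 / (p2 : ℝ) ^ 3), by positivity, ?_⟩
  intro p _
  have hp0 : 0 < p := (Fact.out : p.Prime).pos
  have hpR : (0 : ℝ) < p := by exact_mod_cast hp0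
  have hp1R : (1 : ℝ) ≤ p := by exact_mod_cast hp0
  rcases Nat.lt_or_ge p p2 with hlt | hge
  · have hG : (Nat.card (SL (ZMod p)) : ℝ) ≤ (p2 : ℝ) ^ 3 := by
      have h1 : Nat.card (SL (ZMod p)) ≤ p2 ^ 3 := by
        rw [hCRD p Fact.out]
        exact le_trans (Nat.sub_le _ _) (Nat.pow_le_pow_left hlt.le 3)
      exact_mod_cast h1
    have hG0 : (0 : ℝ) < Nat.card (SL (ZMod p)) := by exact_mod_cast Nat.card_pos
    have hε : min (c0 / (4 * (l1 : ℝ))) (1 / (p2 : ℝ) ^ 3) ≤ 1 / (Nat.card (SL (ZMod p)) : ℝ) :=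
      le_trans (min_le_right _ _) (one_div_le_one_div_of_le hG0 hG)
    refine ⟨⟨∅, by simp; positivity, ?_⟩, ?_⟩
    · intro S a ha b hb hab _
      exact fnr_mono S hε (hSMS _ S a b l ha hb (Or.inl hab))
    · have : ((univ : Finset (Fin r → SL (ZMod p))).filter (fun s =>
          Subgroup.closure (Set.range s) = ⊤ ∧ ¬ SExp (univ.image s)
            (min (c0 / (4 * (l1 : ℝ))) (1 / (p2 : ℝ) ^ 3)))) = ∅ := by
        rw [filter_eq_empty_iff]
        rintro s - ⟨hs1, hs2⟩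
        apply hs2
        refine fnr_mono _ hε (hSMS _ (univ.image s) 1 1 0 (fnr_id _) (fnr_id _) (Or.inr ?_))
        rw [coe_image, coe_univ, Set.image_univ]
        exact hs1
      rw [this, card_empty, Nat.cast_zero]
      positivity
  · have hp5 : 5 ≤ p := le_trans (le_trans (le_max_left 5 p1) (le_max_left _ _)) hge
    have hpp1 : p1 ≤ p := le_trans (le_trans (le_max_right 5 p1) (le_max_left _ _)) hge
    have hpp3 := hp3 p (le_trans (le_trans (le_max_left p3 p4) (le_max_right _ _)) hge)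
    have hpp4 := hp4 p (le_trans (le_trans (le_max_right p3 p4) (le_max_right _ _)) hge)
    obtain ⟨T, hT1, hT2⟩ := hF p
    obtain ⟨Bd, hBd1, hBd2⟩ := hBDC p
    have hmainS : ∀ S : Finset (SL (ZMod p)), ∀ a ∈ Bl S l1, ∀ b ∈ Bl S l1,
        Subgroup.closure ({a, b} : Set (SL (ZMod p))) = ⊤ → (tr a, tr b, tr (a * b)) ∉ T →
        SExp S (min (c0 / (4 * (l1 : ℝ))) (1 / (p2 : ℝ) ^ 3)) := by
      intro S a ha b hb hab hT
      exact fnr_mono S (min_le_left _ _)
        (hEXW _ S l1 a b c0 (by omega) ha hb (hT2 a b hab hT))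
    refine ⟨⟨T, le_trans hT1 (Real.rpow_le_rpow_of_exponent_le hp1R hδ1le), ?_⟩, ?_⟩
    · intro S a ha b hb hab hT
      exact hmainS S a (fnr_sub S (by omega) ha) b (fnr_sub S (by omega) hb) hab hT
    · have hcount := hCTP p hp5 r T (T.image Prod.fst ∪ Bd)
        ((univ : Finset (Fin r → SL (ZMod p))).filter (fun s =>
          Subgroup.closure (Set.range s) = ⊤ ∧ ¬ SExp (univ.image s)
            (min (c0 / (4 * (l1 : ℝ))) (1 / (p2 : ℝ) ^ 3)))) (by
          intro s hs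
          rw [mem_filter] at hs
          obtain ⟨-, hs1, hs2⟩ := hs
          have hcl : Subgroup.closure ((univ.image s : Finset (SL (ZMod p))) :
              Set (SL (ZMod p))) = ⊤ := by
            rw [coe_image, coe_univ, Set.image_univ]
            exact hs1
          have hin : ∀ a ∈ Bl (univ.image s) l1, ∀ b ∈ Bl (univ.image s) l1,
              Subgroup.closure ({a, b} : Set (SL (ZMod p))) = ⊤ →
              (tr a, tr b, tr (a * b)) ∈ T := by
            intro a ha b hb hab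
            by_contra hT
            exact hs2 (hmainS _ a ha b hb hab hT)
          obtain ⟨a, ha, hHa⟩ := hA p hpp1 (univ.image s) hcl
          obtain ⟨b, hb, hab⟩ := hTRG p hp5 (univ.image s) hcl a hHa
          have hx : ∀ x ∈ Bl (univ.image s) (N1 + 9), tr x ∈ T.image Prod.fst ∪ Bd := by
            intro x hx
            rw [mem_union]
            by_cases hHx : Hyp x
            · left
              obtain ⟨h, hh, hxh⟩ := hTRG p hp5 (univ.image s) hcl x hHx
              have := hin x (fnr_sub _ (by omega) hx) h (fnr_sub _ (by omega) hh) hxh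
              rw [mem_image]
              exact ⟨_, this, rfl⟩
            · right
              exact hBd2 x hHx
          refine ⟨a, b, hab, hin a (fnr_sub _ (by omega) ha) b (fnr_sub _ (by omega) hb) hab, ?_⟩
          intro i
          have hsi : s i ∈ Bl (univ.image s) 1 := fnr_one _ (mem_image_of_mem s (mem_univ i))
          exact ⟨hx _ (fnr_sub _ (by omega) hsi), hx _ (fnr_sub _ (by omega) (fnr_mul _ hsi ha)),
            hx _ (fnr_sub _ (by omega) (fnr_mul _ hsi hb))⟩)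
      have hcountR : (((univ : Finset (Fin r → SL (ZMod p))).filter (fun s =>
          Subgroup.closure (Set.range s) = ⊤ ∧ ¬ SExp (univ.image s)
            (min (c0 / (4 * (l1 : ℝ))) (1 / (p2 : ℝ) ^ 3)))).card : ℝ) ≤
          4 * (p : ℝ) ^ 3 * T.card * (2 * ((T.image Prod.fst ∪ Bd).card : ℝ) ^ 3) ^ r := by
        exact_mod_cast hcount
      have hT' : ((T.image Prod.fst ∪ Bd).card : ℝ) ≤ 2 * (p : ℝ) ^ δ1 := by
        have h1 : (T.image Prod.fst ∪ Bd).card ≤ T.card + 8000 := by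
          refine le_trans (card_union_le _ _) ?_
          exact Nat.add_le_add card_image_le hBd1
        have h2 : ((T.image Prod.fst ∪ Bd).card : ℝ) ≤ T.card + 8000 := by exact_mod_cast h1
        linarith
      have hpd : 0 < (p : ℝ) ^ δ1 := Real.rpow_pos_of_pos hpR _
      have hstep : (2 * ((T.image Prod.fst ∪ Bd).card : ℝ) ^ 3) ^ r ≤
          16 ^ r * (p : ℝ) ^ (3 * r * δ1) := by
        have h1 : ((T.image Prod.fst ∪ Bd).card : ℝ) ^ 3 ≤ (2 * (p : ℝ) ^ δ1) ^ 3 :=
          pow_le_pow_left₀ (Nat.cast_nonneg _) hT' 3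
        have h2 : 2 * ((T.image Prod.fst ∪ Bd).card : ℝ) ^ 3 ≤ 16 * ((p : ℝ) ^ δ1) ^ 3 := by
          have : (2 * (p : ℝ) ^ δ1) ^ 3 = 8 * ((p : ℝ) ^ δ1) ^ 3 := by ring
          linarith
        refine le_trans (pow_le_pow_left₀ (by positivity) h2 r) (le_of_eq ?_)
        have h3 : ((p : ℝ) ^ δ1) ^ (3 * r) = (p : ℝ) ^ (3 * r * δ1) := by
          rw [← Real.rpow_natCast, ← Real.rpow_mul hpR.le]
          congr 1
          push_cast
          ring
        rw [mul_pow, ← pow_mul, h3]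
      have htot : 4 * (p : ℝ) ^ 3 * T.card * (2 * ((T.image Prod.fst ∪ Bd).card : ℝ) ^ 3) ^ r ≤
          (p : ℝ) ^ δ1 * ((p : ℝ) ^ (3 : ℝ) * (p : ℝ) ^ δ1 * (p : ℝ) ^ (3 * r * δ1)) := by
        have h3 : (p : ℝ) ^ (3 : ℝ) = (p : ℝ) ^ 3 := by
          rw [← Real.rpow_natCast]; norm_num
        rw [h3]
        calc 4 * (p : ℝ) ^ 3 * T.card * (2 * ((T.image Prod.fst ∪ Bd).card : ℝ) ^ 3) ^ r
            ≤ 4 * (p : ℝ) ^ 3 * (p : ℝ) ^ δ1 * (16 ^ r * (p : ℝ) ^ (3 * r * δ1)) := by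
              apply mul_le_mul _ hstep (by positivity) (by positivity)
              apply mul_le_mul_of_nonneg_left hT1 (by positivity)
          _ = (4 * 16 ^ r) * ((p : ℝ) ^ 3 * (p : ℝ) ^ δ1 * (p : ℝ) ^ (3 * r * δ1)) := by ring
          _ ≤ (p : ℝ) ^ δ1 * ((p : ℝ) ^ 3 * (p : ℝ) ^ δ1 * (p : ℝ) ^ (3 * r * δ1)) := by
              apply mul_le_mul_of_nonneg_right hpp4 (by positivity)
      have hexp : (p : ℝ) ^ δ1 * ((p : ℝ) ^ (3 : ℝ) * (p : ℝ) ^ δ1 * (p : ℝ) ^ (3 * r * δ1)) =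
          (p : ℝ) ^ (3 + δ) := by
        rw [← Real.rpow_add hpR, ← Real.rpow_add hpR, ← Real.rpow_add hpR]
        congr 1
        linarith
      rw [← hexp]
      exact le_trans hcountR htot

end Pool.Agent.Helper51.XP
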