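import Pool.Agent.Helper81.XP.StB

/-!
MP_f90738_co: making a polynomial in three variables monic by a linear change of coordinates.
-/

set_option autoImplicit false

open Finset
open scoped Pointwise LinearAlgebra.Projectivization

namespace Pool.Agent.Helper51.XP

open Pool.Agent.Helper81.XP

variable {k : Type} [Field k]

theorem lib_iff (N : ℕ) (F : T3 k) :
    TD3 N F ↔ ∀ i j l, N < i + j + l → ((F.coeff i).coeff j).coeff l = 0 := by
  constructor
  · intro h i j l hN
    by_contra hc
    have := h i j l hc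
    omega
  · intro h i j l hc
    by_contra hN
    exact hc (h i j l (by omega))

theorem lib_mono {m n : ℕ} (hmn : m ≤ n) {F : T3 k} (h : TD3 m F) : TD3 n F :=
  fun i j l hc => le_trans (h i j l hc) hmn

theorem lib_mul {m n : ℕ} {F G : T3 k} (hF : TD3 m F) (hG : TD3 n G) : TD3 (m + n) (F * G) := by
  rw [lib_iff]
  intro i j l hN
  rw [Polynomial.coeff_mul, Polynomial.finsetSum_coeff, Polynomial.finsetSum_coeff]
  refine sum_eq_zero fun a ha => ?_
  rw [Polynomial.coeff_mul, Polynomial.finsetSum_coeff]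
  refine sum_eq_zero fun b hb => ?_
  rw [Polynomial.coeff_mul]
  refine sum_eq_zero fun c hc => ?_
  rw [HasAntidiagonal.mem_antidiagonal] at ha hb hc
  rcases Nat.lt_or_ge m (a.1 + b.1 + c.1) with h | h
  · rw [(lib_iff m F).1 hF _ _ _ h, zero_mul]
  · rw [(lib_iff n G).1 hG _ _ _ (by omega), mul_zero]

theorem lib_sum {ι : Type} (S : Finset ι) (f : ι → T3 k) {n : ℕ} (h : ∀ s ∈ S, TD3 n (f s)) :
    TD3 n (∑ s ∈ S, f s) := by
  rw [lib_iff]
  intro i j l hN
  rw [Polynomial.finsetSum_coeff, Polynomial.finsetSum_coeff, Polynomial.finsetSum_coeff]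
  exact sum_eq_zero fun s hs => (lib_iff n _).1 (h s hs) i j l hN

theorem lib_add {n : ℕ} {F G : T3 k} (hF : TD3 n F) (hG : TD3 n G) : TD3 n (F + G) := by
  rw [lib_iff]
  intro i j l hN
  rw [Polynomial.coeff_add, Polynomial.coeff_add, Polynomial.coeff_add,
    (lib_iff n F).1 hF i j l hN, (lib_iff n G).1 hG i j l hN, add_zero]

theorem lib_C (c : k) : TD3 0 (Polynomial.C (Polynomial.C (Polynomial.C c)) : T3 k) := by
  rw [lib_iff]
  intro i j l hN
  rw [Polynomial.coeff_C]
  split_ifs with h1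
  · rw [Polynomial.coeff_C]
    split_ifs with h2
    · rw [Polynomial.coeff_C, if_neg (by omega)]
    · simp
  · simp

theorem lib_X : TD3 1 (Polynomial.X : T3 k) := by
  rw [lib_iff]
  intro i j l hN
  rw [Polynomial.coeff_X]
  split_ifs with h1
  · rw [Polynomial.coeff_one]
    split_ifs with h2
    · rw [Polynomial.coeff_one, if_neg (by omega)]
    · simp
  · simp

theorem lib_CX : TD3 1 (Polynomial.C Polynomial.X : T3 k) := by
  rw [lib_iff]
  intro i j l hN
  rw [Polynomial.coeff_C]
  split_ifs with h1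
  · rw [Polynomial.coeff_X]
    split_ifs with h2
    · rw [Polynomial.coeff_one, if_neg (by omega)]
    · simp
  · simp

theorem lib_CCX : TD3 1 (Polynomial.C (Polynomial.C Polynomial.X) : T3 k) := by
  rw [lib_iff]
  intro i j l hN
  rw [Polynomial.coeff_C]
  split_ifs with h1
  · rw [Polynomial.coeff_C]
    split_ifs with h2
    · rw [Polynomial.coeff_X, if_neg (by omega)]
    · simp
  · simp

theorem lib_lf (M : Matrix (Fin 3) (Fin 3) k) (i : Fin 3) : TD3 1 (lf M i) := by
  unfold lf
  rw [map_mul, map_mul, map_mul]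
  refine lib_add (lib_add ?_ ?_) ?_
  · exact lib_mul (m := 0) (n := 1) (lib_C _) lib_CCX
  · exact lib_mul (m := 0) (n := 1) (lib_C _) lib_CX
  · exact lib_mul (m := 0) (n := 1) (lib_C _) lib_X

theorem lib_pow {n : ℕ} {F : T3 k} (hF : TD3 n F) (m : ℕ) : TD3 (m * n) (F ^ m) := by
  induction m with
  | zero =>
    rw [pow_zero, Nat.zero_mul]
    have := lib_C (1 : k)
    simpa using this
  | succ m ih =>
    rw [pow_succ, Nat.succ_mul]
    exact lib_mul ih hF

theorem lib_deg {n : ℕ} {F : T3 k} (hF : TD3 n F) : F.natDegree ≤ n := by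
  rw [Polynomial.natDegree_le_iff_coeff_eq_zero]
  intro i hi
  ext j l
  rw [(lib_iff n F).1 hF i j l (by omega)]
  simp

theorem lib_term (M : Matrix (Fin 3) (Fin 3) k) (c : k) (d : Fin 3 →₀ ℕ) :
    TD3 (d 0 + d 1 + d 2) ((Polynomial.C (Polynomial.C (Polynomial.C c)) : T3 k) *
      ∏ i, lf M i ^ d i) ∧
    ((Polynomial.C (Polynomial.C (Polynomial.C c)) : T3 k) *
      ∏ i, lf M i ^ d i).coeff (d 0 + d 1 + d 2) =
      Polynomial.C (Polynomial.C (c * ∏ i, M i 2 ^ d i)) := by
  have hp : ∀ i, TD3 (d i) (lf M i ^ d i) := fun i => by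
    have := lib_pow (lib_lf M i) (d i)
    rwa [mul_one] at this
  have hc : ∀ i, (lf M i ^ d i).coeff (d i) = Polynomial.C (Polynomial.C (M i 2 ^ d i)) := by
    intro i
    have h1 := Polynomial.coeff_pow_of_natDegree_le (m := d i) (lib_deg (lib_lf M i))
    rw [mul_one] at h1
    rw [h1]
    have h2 : (lf M i).coeff 1 = Polynomial.C (Polynomial.C (M i 2)) := by
      unfold lf
      simp [Polynomial.coeff_C]
    rw [h2, ← Polynomial.C_pow, ← Polynomial.C_pow]
  rw [Fin.prod_univ_three, Fin.prod_univ_three]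
  have h01 := lib_mul (hp 0) (hp 1)
  have h012 := lib_mul h01 (hp 2)
  have hall := lib_mul (lib_C c) h012
  rw [Nat.zero_add] at hall
  refine ⟨hall, ?_⟩
  have e1 := Polynomial.coeff_mul_add_eq_of_natDegree_le (lib_deg (hp 0)) (lib_deg (hp 1))
  have e2 := Polynomial.coeff_mul_add_eq_of_natDegree_le (lib_deg h01) (lib_deg (hp 2))
  rw [Polynomial.coeff_C_mul, e2, e1, hc 0, hc 1, hc 2]
  simp only [Polynomial.C_mul]

theorem lib_phi (M : Matrix (Fin 3) (Fin 3) k) (F : MvPolynomial (Fin 3) k) :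
    phi M F = ∑ d ∈ F.support, (Polynomial.C (Polynomial.C (Polynomial.C (F.coeff d))) : T3 k) *
      ∏ i, lf M i ^ d i := by
  unfold phi
  rw [MvPolynomial.coe_eval₂Hom, MvPolynomial.eval₂_eq']
  rfl

theorem lib_le (F : MvPolynomial (Fin 3) k) (d : Fin 3 →₀ ℕ) (hd : d ∈ F.support) :
    d 0 + d 1 + d 2 ≤ F.totalDegree := by
  have h := MvPolynomial.le_totalDegree hd
  rw [Finsupp.sum_fintype _ _ (fun _ => rfl), Fin.sum_univ_three] at h
  exact h

theorem lib_one (M : Matrix (Fin 3) (Fin 3) k) (F : MvPolynomial (Fin 3) k) :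
    TD3 F.totalDegree (phi M F) := by
  rw [lib_phi]
  exact lib_sum _ _ fun d hd => lib_mono (lib_le F d hd) (lib_term M _ d).1

theorem lib_top (M : Matrix (Fin 3) (Fin 3) k) (F : MvPolynomial (Fin 3) k) :
    (phi M F).coeff F.totalDegree = Polynomial.C (Polynomial.C
      (MvPolynomial.eval (fun i => M i 2) (MvPolynomial.homogeneousComponent F.totalDegree F))) := by
  rw [lib_phi, Polynomial.finsetSum_coeff, MvPolynomial.homogeneousComponent_apply, map_sum,
    map_sum, map_sum, sum_filter]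
  refine sum_congr rfl fun d hd => ?_
  have hdeg : d.degree = d 0 + d 1 + d 2 := by
    rw [Finsupp.degree_eq_sum, Fin.sum_univ_three]
  split_ifs with h
  · rw [← h, hdeg, (lib_term M _ d).2, MvPolynomial.eval_monomial,
      Finsupp.prod_fintype _ _ (fun _ => pow_zero _)]
  · apply Polynomial.coeff_eq_zero_of_natDegree_lt
    have h1 := lib_deg (lib_term M (F.coeff d) d).1
    have h2 := lib_le F d hd
    rw [hdeg] at h
    omega

theorem st_LIB : ST_LIB := by
  intro k _ _
  refine ⟨fun M F => lib_one M F, fun F hF => ?_⟩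
  have hne : MvPolynomial.homogeneousComponent F.totalDegree F ≠ 0 := by
    have hs : F.support.Nonempty := MvPolynomial.support_nonempty.mpr hF
    obtain ⟨d, hd, hd2⟩ := exists_mem_eq_sup F.support hs (fun s => s.sum fun _ e => e)
    intro h0
    have h1 := MvPolynomial.coeff_homogeneousComponent F.totalDegree F d
    rw [h0, MvPolynomial.coeff_zero, if_pos] at h1
    · exact (MvPolynomial.mem_support_iff.mp hd) h1.symm
    · rw [MvPolynomial.totalDegree, hd2]
      rfl
  obtain ⟨v, hv⟩ : ∃ v : Fin 3 → k, MvPolynomial.eval v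
      (MvPolynomial.homogeneousComponent F.totalDegree F * MvPolynomial.X 0) ≠ 0 := by
    by_contra hcon
    push Not at hcon
    have := MvPolynomial.funext (p := MvPolynomial.homogeneousComponent F.totalDegree F *
      MvPolynomial.X 0) (q := 0) (fun v => by rw [hcon v, map_zero])
    exact mul_ne_zero hne (MvPolynomial.X_ne_zero 0) this
  rw [map_mul, MvPolynomial.eval_X] at hv
  have hv0 : v 0 ≠ 0 := right_ne_zero_of_mul hv
  have hvF := left_ne_zero_of_mul hv
  refine ⟨!![0, 0, v 0; 1, 0, v 1; 0, 1, v 2], ?_, lib_one _ F, ?_⟩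
  · rw [Matrix.det_fin_three]
    simpa using hv0
  · refine ⟨_, ?_, lib_top _ F⟩
    have : (fun i => (!![0, 0, v 0; 1, 0, v 1; 0, 1, v 2] : Matrix (Fin 3) (Fin 3) k) i 2) = v := by
      funext i
      fin_cases i <;> rfl
    rw [this]
    exact hvF

end Pool.Agent.Helper51.XP
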